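import Pool.Agent.H6.TP.Targets

/-!
Row TRG of `top_modules` (`MP_c59857_nt`): the mean of one exponential.
-/

set_option autoImplicit false

namespace Pool.Agent.H95.TP

open Finset Pool.Agent.H6.N4D Pool.Agent.H6.TP

theorem ee_sub_one_ge (x : ℝ) : 4 * nd x ≤ ‖ee x - 1‖ := by
  obtain ⟨k, hk⟩ := exists_int x
  have h1 : ee x = ee (x - k) := by
    have h2 : ee x = ee (x - k) * ee k := by
      rw [← ee_add, sub_add_cancel]
    rw [h2, ee_int, mul_one]
  rw [h1, ← hk]
  set y : ℝ := x - k with hy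
  have hy2 : |y| ≤ 1 / 2 := by
    rw [hk]
    exact nd_le_half x
  unfold ee
  have h3 := Complex.norm_exp_I_mul_ofReal_sub_one (2 * Real.pi * y)
  rw [mul_comm Complex.I] at h3
  rw [h3, Real.norm_eq_abs, abs_mul, abs_of_pos (by norm_num : (0 : ℝ) < 2)]
  have hpi := Real.pi_pos
  have h4 : 2 * Real.pi * y / 2 = Real.pi * y := by ring
  have h5 : |Real.pi * y| ≤ Real.pi / 2 := by
    rw [abs_mul, abs_of_pos hpi]
    nlinarith
  have h6 := Real.mul_abs_le_abs_sin h5
  rw [h4]
  have h7 : 2 / Real.pi * |Real.pi * y| = 2 * |y| := by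
    rw [abs_mul, abs_of_pos hpi]
    field_simp
  rw [h7] at h6
  linarith

theorem ee_nat (x : ℝ) (k : ℕ) : ee (x * k) = ee x ^ k := by
  unfold ee
  rw [← Complex.exp_nat_mul]
  congr 1
  push_cast
  ring

theorem geo_le (x : ℝ) (N : ℕ) (hx : 0 < nd x) : ‖∑ k ∈ range N, ee x ^ k‖ ≤ 1 / (2 * nd x) := by
  have h1 := ee_sub_one_ge x
  have h2 : 0 < ‖ee x - 1‖ := by linarith
  have h3 : ee x ≠ 1 := by
    intro h
    rw [h, sub_self, norm_zero] at h2
    exact lt_irrefl _ h2
  rw [geom_sum_eq h3, norm_div, div_le_div_iff₀ h2 (by positivity)]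
  have h4 : ‖ee x ^ N - 1‖ ≤ 2 := by
    refine (norm_sub_le _ _).trans ?_
    rw [norm_pow, norm_ee, one_pow, norm_one]
    norm_num
  nlinarith

theorem pf_TRG : T_TRG := by
  intro j R n N θ φ η hj hjR hη hG hN
  have hnd : η ≤ nd (j * θ) := by
    have h1 := hG j.natAbs (Int.natAbs_pos.2 hj) (by
      have : ((j.natAbs : ℕ) : ℤ) ≤ R := by rwa [Int.natCast_natAbs]
      exact_mod_cast this)
    rcases Int.natAbs_eq j with h | h
    · rw [h]
      simpa using h1
    · rw [h]
      push_cast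
      rw [neg_mul, nd_neg]
      simpa using h1
  have h0 : 0 < nd (j * θ) := by linarith
  have hN0 : (0 : ℝ) < N := by exact_mod_cast hN
  have h2 : ∑ m ∈ Ioc n (n + N), ee (j * (θ * ((m : ℝ) - n) + φ)) =
      ee (j * φ) * ee (j * θ) * ∑ k ∈ range N, ee (j * θ) ^ k := by
    rw [mul_sum]
    have h3 : Ioc n (n + N) = (range N).image fun k => n + 1 + k := by
      ext m
      simp only [mem_Ioc, mem_image, mem_range]
      constructor
      · intro h
        exact ⟨m - (n + 1), by omega, by omega⟩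
      · rintro ⟨k, hk, rfl⟩
        omega
    rw [h3, sum_image (by intro a _ b _ h; simpa using h)]
    refine sum_congr rfl fun k _ => ?_
    rw [← ee_nat, ← ee_add, ← ee_add]
    congr 1
    push_cast
    ring
  rw [h2, norm_mul, norm_mul, norm_mul, norm_ee, norm_ee, norm_div, norm_one,
    Complex.norm_natCast, one_mul, one_mul]
  have h4 := geo_le (j * θ) N h0
  have h5 : 1 / (2 * nd (j * θ)) ≤ 1 / η := by
    apply one_div_le_one_div_of_le hη
    linarith
  calc 1 / (N : ℝ) * ‖∑ k ∈ range N, ee (j * θ) ^ k‖ ≤ 1 / (N : ℝ) * (1 / η) := by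
        gcongr
        exact h4.trans h5
    _ = 1 / (η * N) := by
        rw [← one_div_mul_one_div]
        ring

end Pool.Agent.H95.TP
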